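import Pool.Agent.Work.MP_70ab54_kt.All

/-!
# MP_70ab54_gt: a knotted torus in the 4-sphere with aspherical complement

There is a smooth embedding `f` of the torus into the 4-sphere whose complement is path connected
with trivial higher homotopy groups, and no homeomorphism of the 4-sphere carries the standard
(unknotted) torus onto the image of `f`.
-/

set_option autoImplicit false

namespace Pool.Agent.Results.MP_70ab54_gt.KnottedAsphericalTorus

open scoped Manifold ContDiff

/-- A smooth immersion: a map of class `C^∞` with injective differential at every point. -/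
def IsSmoothImmersion {E H M F G N : Type} [NormedAddCommGroup E] [NormedSpace ℝ E]
    [TopologicalSpace H] [TopologicalSpace M] [ChartedSpace H M] [NormedAddCommGroup F]
    [NormedSpace ℝ F] [TopologicalSpace G] [TopologicalSpace N] [ChartedSpace G N]
    (I : ModelWithCorners ℝ E H) (J : ModelWithCorners ℝ F G) (f : M → N) : Prop :=
  ContMDiff I J ∞ f ∧ ∀ p, Function.Injective (mfderiv I J f p)

/-- A smooth embedding of the product of two (compact) manifolds `M₁`, `M₂` into `N`: an injective
smooth immersion. -/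
def IsSmoothProductEmbedding {E₁ H₁ M₁ E₂ H₂ M₂ F G N : Type} [NormedAddCommGroup E₁]
    [NormedSpace ℝ E₁] [TopologicalSpace H₁] [TopologicalSpace M₁] [ChartedSpace H₁ M₁]
    [NormedAddCommGroup E₂] [NormedSpace ℝ E₂] [TopologicalSpace H₂] [TopologicalSpace M₂]
    [ChartedSpace H₂ M₂] [NormedAddCommGroup F] [NormedSpace ℝ F] [TopologicalSpace G]
    [TopologicalSpace N] [ChartedSpace G N] (I₁ : ModelWithCorners ℝ E₁ H₁)
    (I₂ : ModelWithCorners ℝ E₂ H₂) (J : ModelWithCorners ℝ F G) (f : M₁ × M₂ → N) : Prop :=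
  IsSmoothImmersion (I₁.prod I₂) J f ∧ Function.Injective f

/-- The 4-sphere: the unit sphere of `ℝ⁵`. -/
abbrev S4 : Type := Metric.sphere (0 : EuclideanSpace ℝ (Fin 5)) 1

/-- `f` is a smooth embedding of the torus `S¹ × S¹` into the 4-sphere. -/
def IsSmoothTorus (f : Circle × Circle → S4) : Prop :=
  IsSmoothProductEmbedding (𝓡 1) (𝓡 1) (𝓡 4) f

/-- The subspace `X` of `Y` is aspherical: path connected, with trivial homotopy groups `π_n` for
all `n ≥ 2` and all base points. -/
def IsAspherical {Y : Type} [TopologicalSpace Y] (X : Set Y) : Prop :=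
  PathConnectedSpace X ∧ ∀ n : ℕ, 2 ≤ n → ∀ x : X, Subsingleton (HomotopyGroup.Pi n X x)

/-- Some homeomorphism of `Y` carries `A` onto `B`. -/
def HomeoEquivalent {Y : Type} [TopologicalSpace Y] (A B : Set Y) : Prop :=
  ∃ h : Y ≃ₜ Y, h '' A = B

/-- The coordinates of a point of the 4-sphere in `ℝ⁵`. -/
def coord (x : S4) (i : Fin 5) : ℝ := (x : EuclideanSpace ℝ (Fin 5)) i

/-- The standard (unknotted) torus: the boundary of the solid torus `x₀² + x₁² ≤ 1/2` in the
equatorial 3-sphere `x₄ = 0`. -/
def stdTorus : Set S4 :=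
  {x | coord x 0 ^ 2 + coord x 1 ^ 2 = 1 / 2 ∧ coord x 2 ^ 2 + coord x 3 ^ 2 = 1 / 2 ∧
    coord x 4 = 0}

/-- A smoothly embedded torus in the 4-sphere with aspherical complement, which is not the image
of the standard torus under any homeomorphism of the 4-sphere. -/
theorem result :
    ∃ f : Circle × Circle → S4, IsSmoothTorus f ∧ IsAspherical (Set.range f)ᶜ ∧
      ¬ HomeoEquivalent stdTorus (Set.range f) := by
  obtain ⟨f, h1, h2, h3, h4, h5, h6⟩ := Pool.KT.all_answer
  exact ⟨f, ⟨⟨h1, h3⟩, h2⟩, ⟨h4, h5⟩, h6⟩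

end Pool.Agent.Results.MP_70ab54_gt.KnottedAsphericalTorus
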